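import Mathlib
import Pool.Agent.H789R2.FR.Smooth
set_option autoImplicit false

/-! # Polar coordinates for complex valued functions, and radial Fourier transforms -/

namespace Pool.Agent.Y407.FB

open MeasureTheory Measure Set Metric Complex
open scoped ENNReal RealInnerProductSpace FourierTransform
open Pool.Agent.H789R2.FR (E sg T sg_ae sg_finite)

/-- Polar coordinates. -/
theorem polar_int {n : ℕ} (hn : 0 < n) (f : E n → ℂ) (hf : Measurable f) (hi : Integrable f) :
    ∫ x, f x = ∫ r in Ioi (0 : ℝ), (r ^ (n - 1)) • ∫ w, f (r • w) ∂(sg n) := by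
  haveI : Nonempty (Fin n) := ⟨⟨0, hn⟩⟩
  haveI : Nontrivial (E n) := inferInstance
  have hfr : Module.finrank ℝ (E n) = n := by simp
  have h0 := (volume : Measure (E n)).measurePreserving_homeomorphUnitSphereProd
  rw [hfr] at h0
  have hsm : ∀ x : ({(0 : E n)}ᶜ : Set (E n)),
      ((homeomorphUnitSphereProd (E n) x).2 : ℝ) • ((homeomorphUnitSphereProd (E n) x).1 : E n) =
        x := by
    intro x
    have hx : ‖(x : E n)‖ ≠ 0 := norm_ne_zero_iff.2 x.2
    simp [smul_smul, hx]
  have hi2 : Integrable (fun p : sphere (0 : E n) 1 × Ioi (0 : ℝ) => f ((p.2 : ℝ) • (p.1 : E n)))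
      ((volume : Measure (E n)).toSphere.prod (volumeIoiPow (n - 1))) := by
    rw [← h0.integrable_comp_emb (Homeomorph.measurableEmbedding _)]
    have h1 : (fun p : sphere (0 : E n) 1 × Ioi (0 : ℝ) => f ((p.2 : ℝ) • (p.1 : E n))) ∘
        (homeomorphUnitSphereProd (E n)) =
          fun x : ({(0 : E n)}ᶜ : Set (E n)) => f (x : E n) := by
      funext x
      simp only [Function.comp_apply, hsm]
    rw [h1]
    have h2 : Integrable (f ∘ (Subtype.val : ({(0 : E n)}ᶜ : Set (E n)) → E n))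
        ((volume : Measure (E n)).comap Subtype.val) :=
      (integrableOn_iff_comap_subtypeVal (measurableSet_singleton (0 : E n)).compl).1
        hi.integrableOn
    exact h2
  calc ∫ x, f x = ∫ x : ({(0 : E n)}ᶜ : Set (E n)), f x ∂((volume : Measure (E n)).comap (↑)) := by
        rw [integral_subtype_comap (measurableSet_singleton _).compl f,
          restrict_compl_singleton]
    _ = ∫ p, f ((p.2 : ℝ) • (p.1 : E n))
          ∂((volume : Measure (E n)).toSphere.prod (volumeIoiPow (n - 1))) := by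
        rw [← h0.integral_comp (Homeomorph.measurableEmbedding _)]
        simp only [hsm]
    _ = ∫ r, ∫ w, f ((r : ℝ) • (w : E n)) ∂((volume : Measure (E n)).toSphere)
          ∂(volumeIoiPow (n - 1)) := by
        rw [integral_prod_symm _ hi2]
    _ = ∫ r : Ioi (0 : ℝ), ∫ w, f ((r : ℝ) • w) ∂(sg n) ∂(volumeIoiPow (n - 1)) := by
        congr 1
        funext r
        rw [sg, integral_map measurable_subtype_coe.aemeasurable]
        have h3 : Measurable fun w : E n => f ((r : ℝ) • w) :=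
          hf.comp (measurable_id.const_smul (r : ℝ))
        exact h3.aestronglyMeasurable
    _ = _ := by
        simp only [Measure.volumeIoiPow, ENNReal.ofReal]
        rw [integral_withDensity_eq_integral_smul,
          integral_subtype_comap measurableSet_Ioi
            fun a ↦ Real.toNNReal (a ^ (n - 1)) • ∫ w, f (a • w) ∂(sg n),
          setIntegral_congr_fun measurableSet_Ioi fun x hx ↦ ?_]
        · show Real.toNNReal (x ^ (n - 1)) • ∫ w, f (x • w) ∂(sg n) = _
          rw [NNReal.smul_def, Real.coe_toNNReal _ (pow_nonneg hx.out.le _)]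
        · exact (measurable_subtype_coe.pow_const _).real_toNNReal

/-- The trivial bound. -/
theorem T_le (n : ℕ) (x : E n) : ‖T (fun _ : E n => (1 : ℂ)) x‖ ≤ (sg n).real univ := by
  haveI := sg_finite n
  unfold T
  calc ‖∫ w, Complex.exp (-((⟪x, w⟫ : ℝ) : ℂ) * I) * (1 : ℂ) ∂(sg n)‖
      ≤ ∫ _w, (1 : ℝ) ∂(sg n) := by
        apply norm_integral_le_of_norm_le (integrable_const _)
        refine Filter.Eventually.of_forall fun w => ?_
        have : -((⟪x, w⟫ : ℝ) : ℂ) * I = ((-⟪x, w⟫ : ℝ) : ℂ) * I := by push_cast; ring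
        rw [this, norm_mul, Complex.norm_exp_ofReal_mul_I]
        simp
    _ = (sg n).real univ := by simp

/-- The bound of the Fourier transform of the sphere on the scales `r w`, `1/2 ≤ r`. -/
theorem T_dec (n : ℕ) (hn : 2 ≤ n) : ∃ C : ℝ, 0 < C ∧ ∀ (w : E n) (r : ℝ), 1 / 2 ≤ r →
    ‖T (fun _ : E n => (1 : ℂ)) ((2 * Real.pi * r) • w)‖ ≤
      C * (1 + ‖w‖) ^ (-(((n : ℝ) - 1) / 2)) := by
  obtain ⟨C, hC, hd⟩ := Pool.Agent.H789R2.FR.decay n hn
  have ht0 : 0 ≤ (sg n).real univ := measureReal_nonneg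
  set t : ℝ := (sg n).real univ with ht
  set κ : ℝ := ((n : ℝ) - 1) / 2 with hκ
  have hκ0 : 0 ≤ κ := by
    have : (2 : ℝ) ≤ n := by exact_mod_cast hn
    simp only [hκ]; linarith
  have hκ' : -((n : ℝ) - 1) / 2 = -κ := by simp only [hκ]; ring
  rw [hκ'] at hd
  refine ⟨(C + t) * 2 ^ κ, by positivity, fun w r hr => ?_⟩
  have hw0 : 0 ≤ ‖w‖ := norm_nonneg w
  rcases le_or_gt ‖w‖ 1 with h1 | h1
  · have h5 : (1 : ℝ) ≤ 2 ^ κ * (1 + ‖w‖) ^ (-κ) := by
      rw [Real.rpow_neg (by linarith), ← div_eq_mul_inv, one_le_div (by positivity)]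
      exact Real.rpow_le_rpow (by linarith) (by linarith) hκ0
    calc ‖T (fun _ : E n => (1 : ℂ)) ((2 * Real.pi * r) • w)‖ ≤ t := T_le n _
      _ ≤ (C + t) * 1 := by linarith
      _ ≤ (C + t) * (2 ^ κ * (1 + ‖w‖) ^ (-κ)) := by
          have : 0 ≤ C + t := by positivity
          gcongr
      _ = _ := by ring
  · have hpi := Real.pi_gt_three
    have h2 : (1 : ℝ) ≤ 2 * Real.pi * r := by nlinarith
    have hne : (2 * Real.pi * r) • w ≠ 0 := by
      refine smul_ne_zero (by linarith) ?_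
      rw [← norm_pos_iff]; linarith
    have h3 := hd _ hne
    rw [norm_smul, Real.norm_of_nonneg (by linarith)] at h3
    have h4 : (2 * Real.pi * r * ‖w‖) ^ (-κ) ≤ 2 ^ κ * (1 + ‖w‖) ^ (-κ) := by
      have h6 : (1 + ‖w‖) / 2 ≤ 2 * Real.pi * r * ‖w‖ := by nlinarith
      calc (2 * Real.pi * r * ‖w‖) ^ (-κ) ≤ ((1 + ‖w‖) / 2) ^ (-κ) :=
            Real.rpow_le_rpow_of_nonpos (by linarith) h6 (by linarith)
        _ = _ := by
            rw [Real.div_rpow (by linarith) (by norm_num), Real.rpow_neg (by norm_num : (0:ℝ) ≤ 2)]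
            field_simp
    calc ‖T (fun _ : E n => (1 : ℂ)) ((2 * Real.pi * r) • w)‖
        ≤ C * (2 * Real.pi * r * ‖w‖) ^ (-κ) := h3
      _ ≤ (C + t) * (2 ^ κ * (1 + ‖w‖) ^ (-κ)) := by
          apply mul_le_mul (by linarith) h4 (by positivity) (by positivity)
      _ = _ := by ring

/-- Fourier transforms of radial functions carried by thin shells. -/
theorem rad (n : ℕ) (hn : 2 ≤ n) : ∃ C : ℝ, 0 < C ∧ ∀ (a : ℝ → ℂ) (r₀ r₁ : ℝ), Measurable a →
    (∀ r, ‖a r‖ ≤ 1) → 1 / 2 ≤ r₀ → r₀ ≤ r₁ → r₁ ≤ 2 → (∀ r, a r ≠ 0 → r₀ ≤ r ∧ r ≤ r₁) →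
    ∀ w : E n, ‖𝓕 (fun ξ : E n => a ‖ξ‖) w‖ ≤
      C * (r₁ - r₀) * (1 + ‖w‖) ^ (-(((n : ℝ) - 1) / 2)) := by
  obtain ⟨C, hC, hd⟩ := T_dec n hn
  refine ⟨2 ^ (n - 1) * C, by positivity, fun a r₀ r₁ ham ha1 h0 h01 h2 hs w => ?_⟩
  set B : ℝ := C * (1 + ‖w‖) ^ (-(((n : ℝ) - 1) / 2)) with hB
  have hw0 : 0 ≤ ‖w‖ := norm_nonneg w
  have hB0 : 0 ≤ B := by positivity
  set f : E n → ℂ := fun v => Complex.exp ((((-2 * Real.pi * ⟪v, w⟫ : ℝ)) : ℂ) * I) • a ‖v‖ with hf
  have hfm : Measurable f := by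
    have h3 : Measurable fun v : E n =>
        Complex.exp ((((-2 * Real.pi * ⟪v, w⟫ : ℝ)) : ℂ) * I) :=
      Continuous.measurable (by fun_prop)
    exact h3.smul (ham.comp measurable_norm)
  have hfi : Integrable f := by
    have hg : Integrable ((closedBall (0 : E n) 2).indicator fun _ => (1 : ℝ)) := by
      rw [integrable_indicator_iff measurableSet_closedBall]
      exact integrableOn_const (measure_closedBall_lt_top.ne)
    refine hg.mono' hfm.aestronglyMeasurable (Filter.Eventually.of_forall fun v => ?_)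
    rw [hf]
    simp only [norm_smul, Complex.norm_exp_ofReal_mul_I, one_mul]
    by_cases hv : v ∈ closedBall (0 : E n) 2
    · rw [indicator_of_mem hv]; exact ha1 _
    · rw [indicator_of_notMem hv]
      have : a ‖v‖ = 0 := by
        by_contra hne
        have := (hs _ hne).2
        apply hv
        rw [mem_closedBall_zero_iff]; linarith
      rw [this, norm_zero]
  have hF : 𝓕 (fun ξ : E n => a ‖ξ‖) w = ∫ v, f v := by
    rw [Real.fourier_eq']
  rw [hF, polar_int (by omega) f hfm hfi]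
  have hin : ∀ r ∈ Ioi (0 : ℝ), (r ^ (n - 1)) • ∫ u, f (r • u) ∂(sg n) =
      (r ^ (n - 1)) • (a r * T (fun _ : E n => (1 : ℂ)) ((2 * Real.pi * r) • w)) := by
    intro r hr
    have hr0 : (0 : ℝ) < r := hr
    congr 1
    unfold T
    rw [← integral_const_mul]
    apply integral_congr_ae
    filter_upwards [sg_ae n] with u hu
    rw [hf]
    simp only [norm_smul, hu, mul_one, Real.norm_of_nonneg hr0.le, smul_eq_mul]
    rw [mul_comm]
    congr 3
    rw [real_inner_smul_left, real_inner_smul_left, real_inner_comm]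
    push_cast
    ring
  rw [setIntegral_congr_fun measurableSet_Ioi hin]
  have hbd : ∀ r ∈ Ioi (0 : ℝ),
      ‖(r ^ (n - 1)) • (a r * T (fun _ : E n => (1 : ℂ)) ((2 * Real.pi * r) • w))‖ ≤
        (Icc r₀ r₁).indicator (fun _ => 2 ^ (n - 1) * B) r := by
    intro r hr
    have hr0 : (0 : ℝ) < r := hr
    by_cases hra : a r = 0
    · rw [hra, zero_mul, smul_zero, norm_zero]
      apply indicator_nonneg
      intro _ _
      positivity
    · obtain ⟨h3, h4⟩ := hs r hra
      rw [indicator_of_mem (show r ∈ Icc r₀ r₁ from ⟨h3, h4⟩), norm_smul, norm_mul, norm_pow,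
        Real.norm_of_nonneg hr0.le]
      have h5 : r ^ (n - 1) ≤ 2 ^ (n - 1) := pow_le_pow_left₀ hr0.le (by linarith) _
      have h6 := hd w r (by linarith)
      have h7 : ‖a r‖ * ‖T (fun _ : E n => (1 : ℂ)) ((2 * Real.pi * r) • w)‖ ≤ 1 * B :=
        mul_le_mul (ha1 r) h6 (norm_nonneg _) zero_le_one
      rw [one_mul] at h7
      exact mul_le_mul h5 h7 (by positivity) (by positivity)
  have hgi : Integrable ((Icc r₀ r₁).indicator (fun _ => 2 ^ (n - 1) * B))
      (volume.restrict (Ioi (0 : ℝ))) := by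
    rw [integrable_indicator_iff measurableSet_Icc]
    refine integrableOn_const ?_
    exact ((Measure.restrict_apply_le _ _).trans_lt measure_Icc_lt_top).ne
  calc ‖∫ r in Ioi (0 : ℝ), (r ^ (n - 1)) •
        (a r * T (fun _ : E n => (1 : ℂ)) ((2 * Real.pi * r) • w))‖
      ≤ ∫ r in Ioi (0 : ℝ), (Icc r₀ r₁).indicator (fun _ => 2 ^ (n - 1) * B) r := by
        apply norm_integral_le_of_norm_le hgi
        exact (ae_restrict_iff' measurableSet_Ioi).2 (Filter.Eventually.of_forall hbd)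
    _ = 2 ^ (n - 1) * B * (r₁ - r₀) := by
        rw [setIntegral_indicator measurableSet_Icc]
        have : Ioi (0 : ℝ) ∩ Icc r₀ r₁ = Icc r₀ r₁ := by
          apply inter_eq_right.2
          intro r hr
          exact lt_of_lt_of_le (by linarith) hr.1
        rw [this, setIntegral_const, Real.volume_real_Icc_of_le h01, smul_eq_mul, mul_comm]
    _ = _ := by rw [hB]; ring

end Pool.Agent.Y407.FB
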