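import Mathlib
import Pool.Agent.Y248.FB.Stm
import Pool.Agent.Y407.FB.Polar
set_option autoImplicit false

/-! # Job RAD of project Y248-FB -/

namespace Pool.Agent.Y407.FB

open Pool.Agent.Y248.FB

theorem t_rad (n : ℕ) (hn : 2 ≤ n) : S_RAD n := rad n hn

end Pool.Agent.Y407.FB
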